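import Pool.Agent.H34.FQ.Targets

/-!
# Row PO1: a positive proportion of the forms has a zero
-/

set_option autoImplicit false

open Finset Pool.Agent.H32.RQ Pool.Agent.H34.FQ

namespace Pool.Agent.H61.HFQ

/-- a primitive zero -/
theorem prim_zero {s : ℕ} {F : Mon s → ℤ} {z₀ : Fin s → ℤ} (h0 : z₀ ≠ 0) (hF : qf F z₀ = 0) :
    ∃ z : Fin s → ℤ, Prm z ∧ qf F z = 0 := by
  obtain ⟨g, hg⟩ := (IsPrincipalIdealRing.principal (Ideal.span (Set.range z₀))).principal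
  have h2 : ∀ j, ∃ c, z₀ j = g * c := by
    intro j
    have h2 : z₀ j ∈ Ideal.span (Set.range z₀) := Ideal.subset_span ⟨j, rfl⟩
    rw [hg, Ideal.submodule_span_eq, Ideal.mem_span_singleton] at h2
    exact h2
  choose z hz using h2
  have hg0 : g ≠ 0 := by
    rintro rfl
    apply h0
    funext j
    rw [hz j, zero_mul]
    rfl
  have h3 : g ∈ Ideal.span (Set.range z₀) := by
    rw [hg]
    exact Submodule.mem_span_singleton_self g
  rw [Ideal.mem_span_range_iff_exists_fun] at h3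
  obtain ⟨c, hc⟩ := h3
  refine ⟨z, ⟨c, ?_⟩, ?_⟩
  · have h4 : g * ∑ i, c i * z i = g * 1 := by
      rw [mul_one, Finset.mul_sum]
      conv_rhs => rw [← hc]
      refine Finset.sum_congr rfl fun i _ => ?_
      rw [hz i]
      ring
    exact mul_left_cancel₀ hg0 h4
  · have h5 : qf F z₀ = g ^ 2 * qf F z := by
      unfold qf
      rw [Finset.mul_sum]
      refine Finset.sum_congr rfl fun p _ => ?_
      rw [hz, hz]
      ring
    rw [hF] at h5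
    rcases mul_eq_zero.1 h5.symm with h | h
    · exact absurd (pow_eq_zero_iff (by norm_num) |>.1 h) hg0
    · exact h

section congr

variable {s : ℕ} {f g : Mon s → ℤ} {U : ℤ}

theorem qf_congr (h : ∀ p, U ∣ f p - g p) (x : Fin s → ℤ) : U ∣ qf f x - qf g x := by
  unfold qf
  rw [← Finset.sum_sub_distrib]
  refine Finset.dvd_sum fun p _ => ?_
  rw [← sub_mul]
  exact dvd_mul_of_dvd_left (h p) _

theorem dq_congr (h : ∀ p, U ∣ f p - g p) (x : Fin s → ℤ) (j : Fin s) :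
    U ∣ dq f x j - dq g x j := by
  unfold dq
  rw [← Finset.sum_sub_distrib]
  refine Finset.dvd_sum fun p _ => ?_
  rw [← sub_mul]
  exact dvd_mul_of_dvd_left (h p) _

theorem bl_congr (h : ∀ p, U ∣ f p - g p) (x y : Fin s → ℤ) : U ∣ bl f x y - bl g x y := by
  unfold bl
  rw [← Finset.sum_sub_distrib]
  refine Finset.dvd_sum fun i _ => ?_
  rw [← mul_sub]
  exact dvd_mul_of_dvd_right (dq_congr h _ _) _

theorem pb_congr (h : ∀ p, U ∣ f p - g p) (T : Matrix (Fin s) (Fin s) ℤ) (p : Mon s) :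
    U ∣ pb T f p - pb T g p := by
  unfold pb
  split_ifs
  · exact qf_congr h _
  · exact bl_congr h _ _

theorem jm_congr (h : ∀ p, U ∣ f p - g p) (F : Mon s → ℤ) (x : Fin s → ℤ) (a b : Fin s) :
    U ∣ jm ![F, f] x a b - jm ![F, g] x a b := by
  have e : jm ![F, f] x a b - jm ![F, g] x a b =
      dq F x a * (dq f x b - dq g x b) - dq F x b * (dq f x a - dq g x a) := by
    unfold jm
    simp only [Matrix.cons_val_zero, Matrix.cons_val_one]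
    ring
  rw [e]
  exact dvd_sub (dvd_mul_of_dvd_right (dq_congr h _ _) _)
    (dvd_mul_of_dvd_right (dq_congr h _ _) _)

end congr

/-- the local conditions at the primes `≤ w₀` -/
theorem local_part (hTRM : T_TRM) {n : ℕ} {F : Mon (n + 2) → ℤ} (N : NF F) (f₀ : Mon (n + 2) → ℤ)
    (e : Fin (n + 2) → ℤ) (t w₀ : ℕ) (he : Prm e) (hF : qf (pb N.T F) e = 0)
    (hf : qf (pb N.T f₀) e = 0) (hp : ∀ p : ℕ, p.Prime → ¬ (p : ℤ) ^ (2 * t) ∣ e 0 ∧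
        ∃ a b, ¬ (p : ℤ) ^ t ∣ jm ![pb N.T F, pb N.T f₀] e a b) :
    ∃ t' U : ℕ, 1 ≤ U ∧ (∀ p : ℕ, p.Prime → p ∣ U → p ≤ w₀) ∧
      ∀ f : Mon (n + 2) → ℤ, (∀ q, (U : ℤ) ∣ f q - f₀ q) →
        ∀ p : ℕ, p.Prime → p ≤ w₀ → RP N t' p f := by
  classical
  have h1 : ∀ p : ℕ, ∃ t₁ : ℕ, p.Prime → ∀ t' : ℕ, t₁ ≤ t' → ∃ k : ℕ,
      ∀ (f : Mon (n + 2) → ℤ) (e : Fin (n + 2) → ℤ), (∃ i, ¬ (p : ℤ) ∣ e i) →
      ¬ (p : ℤ) ^ (2 * t) ∣ e 0 → (p : ℤ) ^ k ∣ qf (pb N.T F) e →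
      (p : ℤ) ^ k ∣ qf (pb N.T f) e →
      (∃ a b, ¬ (p : ℤ) ^ t ∣ jm ![pb N.T F, pb N.T f] e a b) → RP N t' p f := by
    intro p
    by_cases hpp : p.Prime
    · obtain ⟨t₁, h⟩ := hTRM n F N p t hpp
      exact ⟨t₁, fun _ => h⟩
    · exact ⟨0, fun h => absurd h hpp⟩
  choose t₁ ht₁ using h1
  set t' : ℕ := (range (w₀ + 1)).sup t₁ with ht'
  have h2 : ∀ p : ℕ, ∃ k : ℕ, p.Prime → p ≤ w₀ →
      ∀ (f : Mon (n + 2) → ℤ) (e : Fin (n + 2) → ℤ), (∃ i, ¬ (p : ℤ) ∣ e i) →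
      ¬ (p : ℤ) ^ (2 * t) ∣ e 0 → (p : ℤ) ^ k ∣ qf (pb N.T F) e →
      (p : ℤ) ^ k ∣ qf (pb N.T f) e →
      (∃ a b, ¬ (p : ℤ) ^ t ∣ jm ![pb N.T F, pb N.T f] e a b) → RP N t' p f := by
    intro p
    by_cases hpp : p.Prime ∧ p ≤ w₀
    · have h3 : t₁ p ≤ t' := Finset.le_sup (f := t₁) (mem_range.2 (by omega))
      obtain ⟨k, hk⟩ := ht₁ p hpp.1 t' h3
      exact ⟨k, fun _ _ => hk⟩
    · exact ⟨0, fun h h' => absurd ⟨h, h'⟩ hpp⟩
  choose k hk using h2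
  set K : ℕ := (range (w₀ + 1)).sup k with hK
  refine ⟨t', w₀.factorial ^ (K + t), Nat.one_le_pow _ _ (Nat.factorial_pos _), ?_, ?_⟩
  · intro p hpp hd
    exact (hpp.dvd_factorial).1 (hpp.dvd_of_dvd_pow hd)
  · intro f hfU p hpp hpw
    have hkK : k p ≤ K := Finset.le_sup (f := k) (mem_range.2 (by omega))
    have hpU : (p : ℤ) ^ (K + t) ∣ ((w₀.factorial ^ (K + t) : ℕ) : ℤ) := by
      push_cast
      exact pow_dvd_pow_of_dvd (by exact_mod_cast (hpp.dvd_factorial).2 hpw) _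
    have hpf : ∀ m, m ≤ K + t → ∀ q, (p : ℤ) ^ m ∣ pb N.T f q - pb N.T f₀ q := by
      intro m hm q
      exact pb_congr (fun q => (pow_dvd_pow _ hm).trans (hpU.trans (hfU q))) N.T q
    refine hk p hpp hpw f e ?_ (hp p hpp).1 ?_ ?_ ?_
    · by_contra hcon
      push Not at hcon
      obtain ⟨a, ha⟩ := he
      have : (p : ℤ) ∣ 1 := by
        rw [← ha]
        exact Finset.dvd_sum fun i _ => dvd_mul_of_dvd_right (hcon i) _
      exact hpp.one_lt.ne' (by exact_mod_cast Int.eq_one_of_dvd_one (by positivity) this)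
    · rw [hF]
      exact dvd_zero _
    · have := qf_congr (hpf (k p) (by omega)) e
      rw [hf, sub_zero] at this
      exact this
    · obtain ⟨a, b, hab⟩ := (hp p hpp).2
      refine ⟨a, b, fun hd => hab ?_⟩
      have := jm_congr (hpf t (by omega)) (pb N.T F) e a b
      have h4 := dvd_sub hd this
      rw [sub_sub_cancel] at h4
      exact h4

open Classical in
theorem pf_PO1 (hMN1 : T_MN1) (hAC1 : T_AC1) (hPO0 : T_PO0) (hPO2 : T_PO2) (hPO3 : T_PO3)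
    (hTRM : T_TRM) (hNFE : T_NFE) : T_PO1 := by
  intro n F hn hdet hz
  obtain ⟨z₀, hz0, hz1⟩ := hz
  obtain ⟨z, hzp, hzF⟩ := prim_zero hz0 hz1
  obtain ⟨N, -, -⟩ := hNFE n F z hdet hzp hzF
  obtain ⟨f₀, B, r, V, ρ, e, t, hB, hr, hr2, hV, hρ, hreal, hfB, hep, heF, hef, hloc⟩ :=
    hPO0 n F N (by omega)
  obtain ⟨C, hC, hA4⟩ := hAC1 n hn
  -- the choice of `w₀`
  obtain ⟨w₀, hw1, hw, hwmu⟩ : ∃ w₀ : ℕ, 1 ≤ w₀ ∧
      2 * (C * 8 ^ md (n + 2)) ≤ (w₀ : ℝ) ^ 2 ∧ N.mu.natAbs ≤ w₀ := by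
    obtain ⟨m, hm⟩ := exists_nat_ge (2 * (C * 8 ^ md (n + 2)))
    refine ⟨m + 1 + N.mu.natAbs, by omega, hm.trans ?_, by omega⟩
    push_cast
    have h1 := Nat.cast_nonneg (α := ℝ) m
    have h2 := Nat.cast_nonneg (α := ℝ) N.mu.natAbs
    nlinarith [mul_nonneg h1 h2]
  obtain ⟨t', U, hU1, hUp, hUloc⟩ := local_part hTRM N f₀ e t w₀ hep heF hef hloc
  have hUR : (1 : ℝ) ≤ U := by exact_mod_cast hU1
  obtain ⟨ε, hε⟩ : ∃ ε : ℝ, ε = 1 / 4 * (r / (6 * U)) ^ md (n + 2) := ⟨_, rfl⟩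
  have hε0 : 0 < ε := by rw [hε]; positivity
  have hmu : ∀ p : ℕ, p.Prime → (p : ℤ) ∣ N.mu → p ≤ w₀ := by
    intro p hp hd
    have h1 : p ∣ N.mu.natAbs := Int.natCast_dvd.1 hd
    exact (Nat.le_of_dvd (Int.natAbs_pos.2 N.mu0) h1).trans hwmu
  obtain ⟨W₁, K, A₀, hne, hcop, hcount⟩ := hMN1 n F N t' w₀ V ρ hn hV hρ hmu ε hε0
  have hVW : Nat.Coprime U W₁ := by
    refine Nat.coprime_of_dvd fun p hp h1 h2 => ?_
    have h3 := hUp p hp h1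
    have h4 := hcop p hp h2
    omega
  obtain ⟨A₁, hA₁⟩ := hPO2 (n + 2) U B r f₀ hU1 hB hfB hr hr2
  obtain ⟨A₂, hA₂⟩ := hPO3 (n + 2) U B W₁ r f₀ hU1 hB hr hVW
  refine ⟨ε, hε0, A₀ + A₁ + A₂ + 1, fun A hA => ?_⟩
  have hAR : (1 : ℝ) ≤ A := by
    have : 1 ≤ A := by omega
    exact_mod_cast this
  have hWpos : (0 : ℝ) < W₁ := by
    have : 0 < W₁ := Nat.pos_of_ne_zero hne.out
    exact_mod_cast this
  have hcnt := hcount A (by omega)
  have hQ := hA₁ A (by omega)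
  obtain ⟨Q, hQdef⟩ : ∃ Q : ℝ, Q = (r * A / (2 * U)) ^ md (n + 2) := ⟨_, rfl⟩
  rw [← hQdef] at hQ
  obtain ⟨E, hE⟩ : ∃ E : Finset (Mon (n + 2) → ZMod W₁), E =
    (Finset.univ.filter fun f : Mon (n + 2) → ZMod W₁ => 2 * aN N W₁ f < W₁ ^ (n - 1)) :=
    ⟨_, rfl⟩
  have hE4 : (E.card : ℝ) * (w₀ : ℝ) ^ 2 ≤ C * (W₁ : ℝ) ^ md (n + 2) := by
    rw [hE]
    refine hA4 F N W₁ w₀ hw1 fun p hp hd => ⟨hcop p hp hd, fun h => ?_⟩
    have h1 := hcop p hp hd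
    have h2 := hmu p hp h
    omega
  have hZ := hA₂ A (by omega) E
  have hmemE : ∀ f : Mon (n + 2) → ZMod W₁, f ∈ E ↔ 2 * aN N W₁ f < W₁ ^ (n - 1) := by
    intro f
    rw [hE, mem_filter]
    exact ⟨fun h => h.2, fun h => ⟨mem_univ _, h⟩⟩
  -- the first set
  obtain ⟨Z, hZdef⟩ : ∃ Z : Finset (Mon (n + 2) → ℤ),
    Z = (sp1 f₀ U B A r).filter fun f => cf (ZMod W₁) f ∈ E := ⟨_, rfl⟩
  have hZ' : (Z.card : ℝ) * (W₁ : ℝ) ^ md (n + 2) ≤ (4 * r * A / U) ^ md (n + 2) * E.card := by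
    rw [hZdef]
    exact hZ
  have hZQ : (Z.card : ℝ) ≤ 1 / 2 * Q := by
    have h8 : (4 * r * A / U) ^ md (n + 2) = 8 ^ md (n + 2) * Q := by
      rw [hQdef, ← mul_pow]
      congr 1
      field_simp
      norm_num
    have hQ0 : 0 ≤ Q := by rw [hQdef]; positivity
    have hW : (0 : ℝ) < (W₁ : ℝ) ^ md (n + 2) := by positivity
    have hw0 : (0 : ℝ) < (w₀ : ℝ) ^ 2 := by
      have : (1 : ℝ) ≤ w₀ := by exact_mod_cast hw1
      positivity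
    have h9 : ((Z.card : ℝ) * (w₀ : ℝ) ^ 2) * (W₁ : ℝ) ^ md (n + 2) ≤
        (8 ^ md (n + 2) * Q * C) * (W₁ : ℝ) ^ md (n + 2) := by
      calc ((Z.card : ℝ) * (w₀ : ℝ) ^ 2) * (W₁ : ℝ) ^ md (n + 2)
          = ((Z.card : ℝ) * (W₁ : ℝ) ^ md (n + 2)) * (w₀ : ℝ) ^ 2 := by ring
        _ ≤ ((4 * r * A / U) ^ md (n + 2) * E.card) * (w₀ : ℝ) ^ 2 :=
            mul_le_mul_of_nonneg_right hZ' hw0.le
        _ = (8 ^ md (n + 2) * Q) * ((E.card : ℝ) * (w₀ : ℝ) ^ 2) := by rw [h8]; ring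
        _ ≤ (8 ^ md (n + 2) * Q) * (C * (W₁ : ℝ) ^ md (n + 2)) :=
            mul_le_mul_of_nonneg_left hE4 (by positivity)
        _ = _ := by ring
    have h10 : (Z.card : ℝ) * (w₀ : ℝ) ^ 2 ≤ 8 ^ md (n + 2) * Q * C :=
      le_of_mul_le_mul_right h9 hW
    have h11 : 8 ^ md (n + 2) * Q * C ≤ 1 / 2 * Q * (w₀ : ℝ) ^ 2 := by
      have := mul_le_mul_of_nonneg_right hw hQ0
      nlinarith
    exact le_of_mul_le_mul_right (h10.trans h11) hw0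
  -- the second set
  obtain ⟨Nb, hNdef⟩ : ∃ Nb : Finset (Mon (n + 2) → ℤ),
    Nb = ((b1 (n + 2) A).filter fun f => RBN N ρ V A f ∧
      (∀ p : ℕ, p.Prime → p ≤ w₀ → RP N t' p f) ∧
      W₁ ^ (n - 1) ≤ 2 * aN N W₁ (cf (ZMod W₁) f) ∧ ¬ SZ1 F K A f) := ⟨_, rfl⟩
  have h3A : (2 * (A : ℝ) + 1) ^ md (n + 2) ≤ (3 * (A : ℝ)) ^ md (n + 2) := by
    gcongr
    linarith
  have hεA : ε * (2 * (A : ℝ) + 1) ^ md (n + 2) ≤ 1 / 4 * Q := by
    calc ε * (2 * (A : ℝ) + 1) ^ md (n + 2) ≤ ε * (3 * (A : ℝ)) ^ md (n + 2) :=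
          mul_le_mul_of_nonneg_left h3A hε0.le
      _ = 1 / 4 * Q := by
          rw [hε, hQdef, mul_assoc, ← mul_pow]
          congr 2
          field_simp
          norm_num
  have hNQ : (Nb.card : ℝ) ≤ 1 / 4 * Q := by
    rw [hNdef]
    exact hcnt.trans hεA
  -- the target set
  obtain ⟨Tg, hTdef⟩ : ∃ Tg : Finset (Mon (n + 2) → ℤ),
    Tg = ((b1 (n + 2) A).filter fun f =>
      ∃ x : Fin (n + 2) → ℤ, x ≠ 0 ∧ qf F x = 0 ∧ qf f x = 0) := ⟨_, rfl⟩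
  have hsub : sp1 f₀ U B A r ⊆ (Z ∪ Nb) ∪ Tg := by
    intro f hf
    have hf' := hf
    unfold sp1 at hf'
    rw [mem_filter] at hf'
    rw [mem_union, mem_union]
    by_cases h1 : cf (ZMod W₁) f ∈ E
    · left; left
      rw [hZdef, mem_filter]
      exact ⟨hf, h1⟩
    · by_cases h2 : SZ1 F K A f
      · right
        rw [hTdef, mem_filter]
        obtain ⟨x, hx0, hx, hx', -⟩ := h2
        exact ⟨hf'.1, x, hx0, hx, hx'⟩
      · left; right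
        rw [hNdef, mem_filter]
        refine ⟨hf'.1, hreal A U f hf, ?_, ?_, h2⟩
        · exact hUloc f fun q => (hf'.2 q).1
        · rw [hmemE] at h1
          exact not_lt.1 h1
  have hcard : ((sp1 f₀ U B A r).card : ℝ) ≤ Z.card + Nb.card + Tg.card := by
    have h1 := Finset.card_le_card hsub
    have h2 := Finset.card_union_le (Z ∪ Nb) Tg
    have h3 := Finset.card_union_le Z Nb
    have h4 : (sp1 f₀ U B A r).card ≤ Z.card + Nb.card + Tg.card := by omega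
    exact_mod_cast h4
  rw [← hTdef]
  linarith

end Pool.Agent.H61.HFQ
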